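import Pool.Agent.MP_9ab903_nt.NGX.D
import Pool.Agent.MP_9ab903_nt.TWR.TD

/-! ## [NG-X] part E: the fields of the class inside `ℂ` -/

set_option autoImplicit false

open NumberField IsDedekindDomain
open CM27 CMT CF NAB TWR
open scoped Classical

namespace NGX

/-- **Subfields of `ℂ` in the class, Galois over `ℚ(ω)`, with Galois group of arbitrarily large nilpotency
class.** -/
theorem exists_TT (c : ℕ) : ∃ (F : IntermediateField ℚ ℂ) (_ : NumberField F) (hw : w ∈ F),
    letI := algK F hw
    IsGalois KK F ∧ (∃ n : ℕ, Module.finrank KK F = 2 ^ n) ∧ TTd F hw 1 ∧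
      (⊤ : Subgroup (F ≃ₐ[KK] F)).lowerCentralSeries c ≠ ⊥ := by
  obtain ⟨φ, -⟩ := exists_KK
  obtain ⟨M, _, _, _, _, n, hn, hu, hc⟩ := exists_class KK φ c
  have hfin : FiniteDimensional KK M := Module.Finite.of_restrictScalars_finite ℚ KK M
  let ι : M →ₐ[KK] ℂ := IsAlgClosed.lift
  let F : IntermediateField ℚ ℂ := ι.fieldRange.restrictScalars ℚ
  have hmemF : ∀ x : M, ι x ∈ F := fun x => ⟨x, rfl⟩
  have hw : w ∈ F := by
    have h1 := hmemF (algebraMap KK M ⟨w, d2_w_mem⟩)
    rw [ι.commutes] at h1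
    exact h1
  letI := algK F hw
  let f : M →ₐ[KK] F := { toRingHom := (ι : M →+* ℂ).codRestrict F hmemF
                          commutes' := fun x => Subtype.ext (ι.commutes x) }
  have hf : Function.Bijective f := by
    refine ⟨f.toRingHom.injective, ?_⟩
    rintro ⟨_, x, rfl⟩
    exact ⟨x, rfl⟩
  let e : M ≃ₐ[KK] F := AlgEquiv.ofBijective f hf
  have hfinF : FiniteDimensional KK F := Module.Finite.equiv e.toLinearEquiv
  have hST : IsScalarTower ℚ KK F := IsScalarTower.of_algebraMap_eq' (Subsingleton.elim _ _)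
  have hnf : NumberField F :=
    { to_finiteDimensional := Module.Finite.trans KK F }
  refine ⟨F, hnf, hw, IsGalois.of_algEquiv e, ⟨n, ?_⟩, ?_, ?_⟩
  · rw [← hn]
    exact e.toLinearEquiv.finrank_eq.symm
  · letI algFM : Algebra F M := (e.symm : F →+* M).toAlgebra
    have hT : IsScalarTower KK F M := IsScalarTower.of_algebraMap_eq fun x => by
      exact (e.symm.commutes x).symm
    exact ⟨M, inferInstance, inferInstance, inferInstance, inferInstance, inferInstance,
      inferInstance, n, hn, hu, 1, by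
        rw [one_pow]
        have h1 : (((1 : 𝓞 F) : F)) = 1 := map_one _
        rw [h1, map_one]⟩
  · intro hbot
    apply hc
    have h1 := Subgroup.map_lowerCentralSeries (⊤ : Subgroup (F ≃ₐ[KK] F))
      (AlgEquiv.autCongr e.symm : (F ≃ₐ[KK] F) ≃* (M ≃ₐ[KK] M)).toMonoidHom c
    rw [hbot, Subgroup.map_bot, Subgroup.map_top_of_surjective _ (MulEquiv.surjective _)] at h1
    exact h1.symm

end NGX
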