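import Pool.Agent.MP_9ab903_nt.NAB.UR
import Pool.Agent.MP_9ab903_nt.CF3.X4
import Pool.Agent.MP_9ab903_nt.CF.D2

/-! ## [NG-X] part A: good primes which split completely in a Galois extension of `2`-power degree -/

set_option autoImplicit false

open NumberField IsDedekindDomain
open CM27 CMT CF
open scoped Classical

namespace NGX

/-- `x ≡ 1` modulo `3 P`, `x ≡ ω` modulo `2`, `a ≡ x ^ 2 ^ n` modulo `6 P`: a good prime divides the norm of
`a`, and not `P`. -/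
theorem good_dvd (P : ℕ) (hP : Odd P) (n : ℕ) (a : Eis)
    (ha : (6 * P : Eis) ∣ a - (⟨1 - 3 * (P : ℤ), 3 * P⟩ : Eis) ^ 2 ^ n) :
    ∃ (p : ℕ) (_ : GoodPrime p) (z : ZMod p) (hz : z * z = -1 - z), x4_hom p z hz a = 0 ∧
      ¬ p ∣ P ∧ p ≠ 2 ∧ p ≠ 3 := by
  obtain ⟨l, hl⟩ := hP
  obtain ⟨x, hx⟩ : ∃ x : Eis, x = ⟨1 - 3 * (P : ℤ), 3 * P⟩ := ⟨_, rfl⟩
  obtain ⟨N, hN⟩ : ∃ N : ℕ, N = 2 ^ n := ⟨_, rfl⟩
  rw [← hx, ← hN] at ha
  have h3r : (3 : Eis).re = 3 := rfl
  have h3i : (3 : Eis).im = 0 := rfl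
  have h2r : (2 : Eis).re = 2 := rfl
  have h2i : (2 : Eis).im = 0 := rfl
  have h31 : (3 : Eis) ∣ x - 1 := by
    refine ⟨⟨-P, P⟩, ?_⟩
    rw [hx]
    ext
    · simp [h3r, h3i, QuadraticAlgebra.re_one]
    · simp [h3r, h3i, QuadraticAlgebra.im_one]
  have hprim : Primary a := by
    have h3 : (3 : Eis) ∣ x ^ N - 1 := by
      have := sub_dvd_pow_sub_pow x 1 N
      rw [one_pow] at this
      exact h31.trans this
    have h4 : (3 : Eis) ∣ a - x ^ N := (Dvd.intro (2 * P : Eis) (by ring)).trans ha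
    have h5 : a - 1 = (x ^ N - 1) + (a - x ^ N) := by ring
    change (3 : Eis) ∣ a - 1
    rw [h5]
    exact dvd_add h3 h4
  have him : ¬ (2 : ℤ) ∣ a.im := by
    have h1 : (2 : Eis) ∣ x - x4_om := by
      refine ⟨⟨-1 - 3 * l, 1 + 3 * l⟩, ?_⟩
      rw [hx, hl, x4_om]
      ext
      · simp [h2r, h2i]; ring
      · simp [h2r, h2i]; ring
    have h3 : (2 : Eis) ∣ x ^ N - x4_om ^ N := h1.trans (sub_dvd_pow_sub_pow x x4_om N)
    have h4 : (2 : Eis) ∣ a - x ^ N := (Dvd.intro (3 * P : Eis) (by ring)).trans ha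
    have h5 : (2 : Eis) ∣ a - x4_om ^ N := by
      have : a - x4_om ^ N = (x ^ N - x4_om ^ N) + (a - x ^ N) := by ring
      rw [this]
      exact dvd_add h3 h4
    have h6 := x4_two_dvd_im h5
    rw [QuadraticAlgebra.im_sub] at h6
    have h7 : (x4_om ^ N).im = 1 ∨ (x4_om ^ N).im = -1 := by
      rw [hN]
      rcases x4_om_pow n with h | h
      · left; rw [h]
      · right; rw [h]
    rcases h7 with h7 | h7 <;> rw [h7] at h6 <;> omega
  have hodd : Odd a.norm := by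
    by_contra h
    exact him (x4_two_dvd_im (b7_even_dvd a h))
  have hex : ∃ p : ℕ, GoodPrime p ∧ (p : ℤ) ∣ a.norm := by
    by_contra h
    push Not at h
    have h1 := x4_two_dvd_im (b7_key _ a hprim rfl hodd h)
    rw [QuadraticAlgebra.im_sub, QuadraticAlgebra.im_one, sub_zero] at h1
    exact him h1
  obtain ⟨p, hp, hpa⟩ := hex
  have : Fact p.Prime := ⟨hp.1⟩
  obtain ⟨z, hz, hz0⟩ := x4_root' p hp.1 hp.2.1 a hpa
  have hφa : x4_hom p z hz a = 0 := hz0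
  have hp2 : p ≠ 2 := by
    rintro rfl
    have := hp.2.1
    omega
  have hp3 : p ≠ 3 := by
    rintro rfl
    have := hp.2.1
    omega
  refine ⟨p, hp, z, hz, hφa, ?_, hp2, hp3⟩
  intro hpP
  -- `a ≡ 1` modulo `p`
  obtain ⟨c, hc⟩ := ha
  have h1 := congrArg (x4_hom p z hz) hc
  have hPz : (P : ZMod p) = 0 := (ZMod.natCast_eq_zero_iff P p).2 hpP
  have hxv : x4_hom p z hz x = 1 := by
    rw [x4_hom_apply, hx]
    push_cast
    rw [hPz]
    ring
  rw [map_sub, map_pow, hφa, hxv, one_pow, map_mul, map_mul, map_natCast, hPz] at h1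
  rw [mul_zero, zero_mul] at h1
  have h2 : (1 : ZMod p) = 0 := by linear_combination -h1
  exact one_ne_zero h2

end NGX
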