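import Pool.Agent.MP_9ab903_nt.NGX.A

/-! ## [NG-X] part B: primes of degree one with trivial decomposition group above good primes -/

set_option autoImplicit false

open NumberField IsDedekindDomain
open CM27 CMT CF
open scoped Classical

namespace NGX

theorem prod_dvd {R ι : Type*} [CommRing R] (s : Finset ι) (c y : R) (t : ι → R) :
    y ∣ ∏ i ∈ s, (c - y * t i) - c ^ s.card := by
  induction s using Finset.induction_on with
  | empty => simp
  | insert a s ha ih =>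
    rw [Finset.prod_insert ha, Finset.card_insert_of_notMem ha]
    obtain ⟨k, hk⟩ := ih
    refine ⟨c * k - t a * ∏ i ∈ s, (c - y * t i), ?_⟩
    linear_combination c * hk

section
variable (K F : Type) [Field K] [NumberField K] [Field F] [NumberField F] [Algebra K F]

/-- the action of the Galois group on the integers -/
noncomputable def act (τ : F ≃ₐ[K] F) : 𝓞 F ≃+* 𝓞 F := RingOfIntegers.mapRingEquiv (τ : F ≃+* F)

theorem act_coe (τ : F ≃ₐ[K] F) (x : 𝓞 F) : ((act K F τ x : 𝓞 F) : F) = τ (x : F) := rfl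

theorem act_mul (σ τ : F ≃ₐ[K] F) (x : 𝓞 F) : act K F (σ * τ) x = act K F σ (act K F τ x) := rfl

theorem act_one (x : 𝓞 F) : act K F 1 x = x := rfl

theorem act_alg (τ : F ≃ₐ[K] F) (x : 𝓞 K) : act K F τ (algebraMap (𝓞 K) (𝓞 F) x) =
    algebraMap (𝓞 K) (𝓞 F) x := by
  apply RingOfIntegers.ext
  exact τ.commutes (x : K)

/-- a primitive integer -/
theorem exists_prim [IsGalois K F] : ∃ θ : 𝓞 F, ∀ τ : F ≃ₐ[K] F, act K F τ θ = θ → τ = 1 := by
  have : FiniteDimensional K F := Module.Finite.of_restrictScalars_finite ℚ K F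
  obtain ⟨α, hα⟩ := Field.exists_primitive_element K F
  have halg : IsAlgebraic ℤ α :=
    (IsFractionRing.isAlgebraic_iff ℤ ℚ F).2 (Algebra.IsAlgebraic.isAlgebraic (R := ℚ) α)
  obtain ⟨m, hm0, hm⟩ := halg.exists_integral_multiple
  refine ⟨⟨m • α, hm⟩, ?_⟩
  intro τ hτ
  have h1 : τ (m • α) = m • α := congrArg (fun t : 𝓞 F => (t : F)) hτ
  rw [map_zsmul] at h1
  have hmF : (m : F) ≠ 0 := by exact_mod_cast hm0
  have h2 : τ α = α := by
    rw [zsmul_eq_mul, zsmul_eq_mul] at h1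
    exact mul_left_cancel₀ hmF h1
  have h3 : IntermediateField.adjoin K {α} ≤
      IntermediateField.fixedField (Subgroup.zpowers τ) := by
    rw [IntermediateField.adjoin_simple_le_iff, IntermediateField.mem_fixedField_iff]
    intro f hf
    obtain ⟨k, rfl⟩ := Subgroup.mem_zpowers_iff.1 hf
    have h4 : τ ∈ MulAction.stabilizer (F ≃ₐ[K] F) α := h2
    exact (Subgroup.zpow_mem _ h4 k)
  ext x
  have h5 : x ∈ IntermediateField.fixedField (Subgroup.zpowers τ) := by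
    apply h3
    rw [hα]
    trivial
  rw [IntermediateField.mem_fixedField_iff] at h5
  exact h5 τ (Subgroup.mem_zpowers τ)

/-- Good primes with a prime of trivial decomposition group in `F`. -/
theorem split_prime [IsGalois K F] (φ : Eis ≃+* 𝓞 K) (n : ℕ)
    (hn : Module.finrank K F = 2 ^ n) (N : ℕ) (hN : N ≠ 0) :
    ∃ p : ℕ, GoodPrime p ∧ ¬ p ∣ N ∧ ∃ P : HeightOneSpectrum (𝓞 F), (p : 𝓞 F) ∈ P.asIdeal ∧
      ∀ τ : F ≃ₐ[K] F, (∀ x ∈ P.asIdeal, act K F τ x ∈ P.asIdeal) → τ = 1 := by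
  haveI : FiniteDimensional K F := Module.Finite.of_restrictScalars_finite ℚ K F
  obtain ⟨θ, hθ⟩ := exists_prim K F
  -- the discriminant
  set E : 𝓞 F := ∏ σ : F ≃ₐ[K] F, ∏ τ ∈ Finset.univ.erase (1 : F ≃ₐ[K] F),
    (act K F σ θ - act K F (τ * σ) θ) with hE
  have hE0 : E ≠ 0 := by
    rw [hE, Finset.prod_ne_zero_iff]
    intro σ _
    rw [Finset.prod_ne_zero_iff]
    intro τ hτ h
    have h1 : act K F τ (act K F σ θ) = act K F σ θ := by
      rw [← act_mul]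
      exact (sub_eq_zero.1 h).symm
    have h2 : act K F (σ⁻¹ * τ * σ) θ = θ := by
      rw [mul_assoc, act_mul, act_mul, h1, ← act_mul, inv_mul_cancel, act_one]
    have h3 := hθ _ h2
    have h4 : τ = 1 := by
      have h5 : σ * (σ⁻¹ * τ * σ) * σ⁻¹ = 1 := by rw [h3, mul_one, mul_inv_cancel]
      rw [← h5]
      group
    exact (Finset.mem_erase.1 hτ).1 h4
  set M1 : ℕ := Ideal.absNorm (Ideal.span {E}) with hM1
  have hM10 : M1 ≠ 0 := by
    rw [hM1, Ne, Ideal.absNorm_eq_zero_iff, Ideal.span_singleton_eq_bot]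
    exact hE0
  have hM1E : E ∣ (M1 : 𝓞 F) := by
    rw [← Ideal.mem_span_singleton]
    exact Ideal.absNorm_mem _
  obtain ⟨k, P, hPodd, hP⟩ := Nat.exists_eq_two_pow_mul_odd (mul_ne_zero hN hM10)
  set x : Eis := ⟨1 - 3 * (P : ℤ), 3 * P⟩ with hx
  set ι : Eis →+* 𝓞 F := (algebraMap (𝓞 K) (𝓞 F)).comp (φ : Eis →+* 𝓞 K) with hι
  set y : 𝓞 F := ((6 * P : ℕ) : 𝓞 F) with hy
  set α : 𝓞 F := ι x - y * θ with hα
  set a' : 𝓞 K := RingOfIntegers.norm K α with ha'
  have hprod : algebraMap (𝓞 K) (𝓞 F) a' = ∏ σ : F ≃ₐ[K] F, (ι x - y * act K F σ θ) := by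
    apply RingOfIntegers.ext
    rw [RingOfIntegers.coe_algebraMap_norm, Algebra.norm_eq_prod_automorphisms]
    have h0 : ((∏ σ : F ≃ₐ[K] F, (ι x - y * act K F σ θ) : 𝓞 F) : F) =
        ∏ σ : F ≃ₐ[K] F, ((ι x - y * act K F σ θ : 𝓞 F) : F) := map_prod (algebraMap (𝓞 F) F) _ _
    refine Eq.trans ?_ h0.symm
    refine Finset.prod_congr rfl (fun σ _ => ?_)
    have h1 : act K F σ α = ι x - y * act K F σ θ := by
      rw [hα, map_sub, map_mul, hy, map_natCast]
      congr 1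
      exact act_alg K F σ (φ x)
    rw [← h1]
    rfl
  have hcard : (Finset.univ : Finset (F ≃ₐ[K] F)).card = 2 ^ n := by
    rw [Finset.card_univ, ← Nat.card_eq_fintype_card, IsGalois.card_aut_eq_finrank, hn]
  have hdvdF : y ∣ algebraMap (𝓞 K) (𝓞 F) (a' - φ x ^ 2 ^ n) := by
    rw [map_sub, hprod, map_pow, ← hcard]
    exact prod_dvd _ _ _ _
  have hdvdK : ((6 * P : ℕ) : 𝓞 K) ∣ a' - φ x ^ 2 ^ n := by
    obtain ⟨c, hc⟩ := hdvdF
    have hP0 : ((6 * P : ℕ) : K) ≠ 0 := by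
      rw [Nat.cast_ne_zero]
      have := hPodd.pos
      omega
    have h1 : algebraMap K F (((a' - φ x ^ 2 ^ n : 𝓞 K) : K) / ((6 * P : ℕ) : K)) = (c : F) := by
      rw [map_div₀, map_natCast]
      have h2 : algebraMap K F ((a' - φ x ^ 2 ^ n : 𝓞 K) : K) = ((6 * P : ℕ) : F) * (c : F) := by
        have := congrArg (fun t : 𝓞 F => (t : F)) hc
        simp only [map_mul] at this
        rw [hy] at this
        push_cast at this ⊢
        exact this
      rw [h2]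
      have hP0' : ((6 * P : ℕ) : F) ≠ 0 := by
        rw [Nat.cast_ne_zero]
        have := hPodd.pos
        omega
      field_simp
    have h3 : IsIntegral ℤ (((a' - φ x ^ 2 ^ n : 𝓞 K) : K) / ((6 * P : ℕ) : K)) := by
      rw [← isIntegral_algebraMap_iff (algebraMap K F).injective, h1]
      exact c.isIntegral_coe
    refine ⟨⟨_, h3⟩, ?_⟩
    apply RingOfIntegers.ext
    change _ = ((6 * P : ℕ) : K) * (((a' - φ x ^ 2 ^ n : 𝓞 K) : K) / ((6 * P : ℕ) : K))
    field_simp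
  obtain ⟨p, hp, z, hz, hza, hpP, hp2, hp3⟩ := good_dvd P hPodd n (φ.symm a') (by
    have h1 := map_dvd (φ.symm : 𝓞 K →+* Eis) hdvdK
    rw [map_sub, map_pow, map_natCast] at h1
    have h2 : (φ.symm : 𝓞 K →+* Eis) (φ x) = x := φ.symm_apply_apply x
    rw [h2] at h1
    push_cast at h1
    exact h1)
  have : Fact p.Prime := ⟨hp.1⟩
  -- the prime of `K`
  set f : 𝓞 K →+* ZMod p := (x4_hom p z hz).comp (φ.symm : 𝓞 K →+* Eis) with hf
  have hfs : Function.Surjective f := ZMod.ringHom_surjective f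
  haveI hmax : (RingHom.ker f).IsMaximal := RingHom.ker_isMaximal_of_surjective f hfs
  obtain ⟨Q, hQm, hQ⟩ := Ideal.exists_maximal_ideal_liesOver_of_isIntegral
    (S := 𝓞 F) (RingHom.ker f)
  have hmem : ∀ b : 𝓞 K, f b = 0 → algebraMap (𝓞 K) (𝓞 F) b ∈ Q := by
    intro b hb
    have h1 : b ∈ Q.under (𝓞 K) := by
      rw [← hQ.over]
      exact hb
    exact h1
  have hpQ : ((p : ℕ) : 𝓞 F) ∈ Q := by
    have h1 := hmem (p : 𝓞 K) (by rw [map_natCast, ZMod.natCast_self])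
    rwa [map_natCast] at h1
  have hQ0 : Q ≠ ⊥ := by
    intro h
    rw [h, Ideal.mem_bot] at hpQ
    exact hp.1.ne_zero (by exact_mod_cast hpQ)
  have hcop : ∀ m : ℕ, ¬ p ∣ m → ((m : ℕ) : 𝓞 F) ∉ Q := by
    intro m hm hmQ
    have h1 : IsCoprime ((m : ℕ) : ℤ) ((p : ℕ) : ℤ) := by
      rw [Nat.isCoprime_iff_coprime]
      exact ((Nat.Prime.coprime_iff_not_dvd hp.1).2 hm).symm
    obtain ⟨u, v, huv⟩ := h1
    have h2 : (1 : 𝓞 F) ∈ Q := by
      have h3 : (1 : 𝓞 F) = (u : 𝓞 F) * (m : 𝓞 F) + (v : 𝓞 F) * (p : 𝓞 F) := by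
        exact_mod_cast congrArg (fun t : ℤ => (t : 𝓞 F)) huv.symm
      rw [h3]
      exact Q.add_mem (Q.mul_mem_left _ hmQ) (Q.mul_mem_left _ hpQ)
    exact hQm.ne_top ((Ideal.eq_top_iff_one Q).2 h2)
  have hNM : ¬ p ∣ N * M1 := by
    rw [hP]
    intro h
    rcases (Nat.Prime.dvd_mul hp.1).1 h with h | h
    · exact hp2 ((Nat.prime_dvd_prime_iff_eq hp.1 Nat.prime_two).1 (hp.1.dvd_of_dvd_pow h))
    · exact hpP h
  have hyQ : y ∉ Q := by
    apply hcop
    intro h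
    rcases (Nat.Prime.dvd_mul hp.1).1 h with h | h
    · rcases (Nat.Prime.dvd_mul hp.1).1 (show p ∣ 2 * 3 from h) with h | h
      · exact hp2 ((Nat.prime_dvd_prime_iff_eq hp.1 Nat.prime_two).1 h)
      · exact hp3 ((Nat.prime_dvd_prime_iff_eq hp.1 Nat.prime_three).1 h)
    · exact hpP h
  refine ⟨p, hp, fun h => hNM (h.mul_right _), ⟨Q, hQm.isPrime, hQ0⟩, hpQ, ?_⟩
  intro τ hτ
  by_contra hτ1
  have h1 : algebraMap (𝓞 K) (𝓞 F) a' ∈ Q := hmem a' hza
  rw [hprod] at h1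
  have h2 := (Ideal.IsPrime.prod_mem_iff (hp := hQm.isPrime)).1 h1
  obtain ⟨σ, -, hσ⟩ := h2
  have h3 : ι x - y * act K F (τ * σ) θ ∈ Q := by
    have h4 := hτ _ hσ
    rw [map_sub, map_mul, hy, map_natCast, ← act_mul] at h4
    have h5 : act K F τ (ι x) = ι x := act_alg K F τ (φ x)
    rw [h5] at h4
    exact h4
  have h4 : y * (act K F σ θ - act K F (τ * σ) θ) ∈ Q := by
    have h5 := Q.sub_mem h3 hσ
    have h6 : y * (act K F σ θ - act K F (τ * σ) θ) =
        (ι x - y * act K F (τ * σ) θ) - (ι x - y * act K F σ θ) := by ring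
    rw [h6]
    exact h5
  have h5 := (hQm.isPrime.mem_or_mem h4).resolve_left hyQ
  have h6 : E ∈ Q := by
    rw [hE]
    refine Ideal.mem_of_dvd Q (Finset.dvd_prod_of_mem _ (Finset.mem_univ σ)) ?_
    exact Ideal.mem_of_dvd Q (Finset.dvd_prod_of_mem _
      (Finset.mem_erase.2 ⟨hτ1, Finset.mem_univ τ⟩)) h5
  have h7 : (M1 : 𝓞 F) ∈ Q := Ideal.mem_of_dvd Q hM1E h6
  exact hcop M1 (fun h => hNM (h.mul_left _)) h7

end

end NGX
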