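import Pool.Agent.MP_9ab903_nt.NGX.B

/-! ## [NG-X] part C: `d ≡ 1 mod 4` with independent conjugates -/

set_option autoImplicit false

open NumberField IsDedekindDomain
open CM27 CMT CF
open scoped Classical

namespace NGX

section
variable (K F : Type) [Field K] [NumberField K] [Field F] [NumberField F] [Algebra K F]

/-- `p` is a good prime with a prime `P` of `F` above it of trivial decomposition group -/
def Sp (p : ℕ) (P : HeightOneSpectrum (𝓞 F)) : Prop :=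
  GoodPrime p ∧ (p : 𝓞 F) ∈ P.asIdeal ∧
    ∀ τ : F ≃ₐ[K] F, (∀ x ∈ P.asIdeal, act K F τ x ∈ P.asIdeal) → τ = 1

omit [NumberField K] [Algebra K F] in
theorem two_primes (P : HeightOneSpectrum (𝓞 F)) (p q : ℕ) (hp : p.Prime) (hq : q.Prime)
    (hpP : (p : 𝓞 F) ∈ P.asIdeal) (hqP : (q : 𝓞 F) ∈ P.asIdeal) : p = q := by
  by_contra hne
  have h1 : IsCoprime ((p : ℕ) : ℤ) ((q : ℕ) : ℤ) := by
    rw [Nat.isCoprime_iff_coprime]
    exact (Nat.coprime_primes hp hq).2 hne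
  obtain ⟨u, v, huv⟩ := h1
  have h2 : (1 : 𝓞 F) ∈ P.asIdeal := by
    have h3 : (1 : 𝓞 F) = (u : 𝓞 F) * (p : 𝓞 F) + (v : 𝓞 F) * (q : 𝓞 F) := by
      exact_mod_cast congrArg (fun t : ℤ => (t : 𝓞 F)) huv.symm
    rw [h3]
    exact P.asIdeal.add_mem (P.asIdeal.mul_mem_left _ hpP) (P.asIdeal.mul_mem_left _ hqP)
  exact P.isPrime.ne_top ((Ideal.eq_top_iff_one _).2 h2)

theorem exists_pairs [IsGalois K F] (φ : Eis ≃+* 𝓞 K) (n : ℕ)
    (hn : Module.finrank K F = 2 ^ n) :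
    ∃ (p₀ p₁ p₂ : ℕ) (P₀ P₁ P₂ : HeightOneSpectrum (𝓞 F)) (h : ℕ) (β₁ β₂ : 𝓞 F),
      Sp K F p₀ P₀ ∧ Sp K F p₁ P₁ ∧ Sp K F p₂ P₂ ∧ p₁ ≠ p₀ ∧ p₁ ≠ p₂ ∧
      Ideal.span {β₁} = P₁.asIdeal * P₀.asIdeal ^ h ∧
      Ideal.span {β₂} = P₂.asIdeal * P₀.asIdeal ^ h ∧ (4 : 𝓞 F) ∣ β₁ - β₂ := by
  -- the infinite set of good primes
  set T : Set ℕ := {p | ∃ P, Sp K F p P} with hT
  have hTinf : T.Infinite := by
    intro hfin
    obtain ⟨p, hp, hpN, P, hP1, hP2⟩ := split_prime K F φ n hn (∏ q ∈ hfin.toFinset, (q + if q = 0 then 1 else 0)) (by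
      rw [Finset.prod_ne_zero_iff]
      intro q _
      split_ifs with h
      · omega
      · omega)
    apply hpN
    have h1 : p ∈ hfin.toFinset := by
      rw [Set.Finite.mem_toFinset]
      exact ⟨P, hp, hP1, hP2⟩
    have h2 := Finset.dvd_prod_of_mem (fun q => q + if q = 0 then 1 else 0) h1
    have h3 : (p + if p = 0 then 1 else 0) = p := by
      rw [if_neg hp.1.ne_zero, add_zero]
    simp only [h3] at h2
    exact h2
  haveI : Infinite T := hTinf.to_subtype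
  choose Pf hPf using fun t : T => t.2
  -- the ideal classes
  have hmem : ∀ P : HeightOneSpectrum (𝓞 F), P.asIdeal ∈ nonZeroDivisors (Ideal (𝓞 F)) :=
    fun P => mem_nonZeroDivisors_of_ne_zero P.ne_bot
  obtain ⟨y, hy⟩ := Finite.exists_infinite_fiber
    (fun t : T => ClassGroup.mk0 (⟨(Pf t).asIdeal, hmem _⟩ : nonZeroDivisors (Ideal (𝓞 F))))
  obtain ⟨t₀⟩ : Nonempty ((fun t : T => ClassGroup.mk0
    (⟨(Pf t).asIdeal, hmem _⟩ : nonZeroDivisors (Ideal (𝓞 F)))) ⁻¹' {y}) := inferInstance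
  set h : ℕ := Fintype.card (ClassGroup (𝓞 F)) - 1 with hh
  have hprinc : ∀ t : T, ClassGroup.mk0 (⟨(Pf t).asIdeal, hmem _⟩ :
      nonZeroDivisors (Ideal (𝓞 F))) = y →
      ∃ β : 𝓞 F, Ideal.span {β} = (Pf t).asIdeal * (Pf t₀).asIdeal ^ h := by
    intro t ht
    have h1 : ClassGroup.mk0 ((⟨(Pf t).asIdeal, hmem _⟩ : nonZeroDivisors (Ideal (𝓞 F))) *
        ⟨(Pf t₀).asIdeal, hmem _⟩ ^ h) = 1 := by
      rw [map_mul, map_pow, ht]
      have h2 : ClassGroup.mk0 (⟨(Pf t₀).asIdeal, hmem _⟩ :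
        nonZeroDivisors (Ideal (𝓞 F))) = y := t₀.2
      rw [h2, ← pow_succ', hh, Nat.sub_add_cancel Fintype.card_pos, pow_card_eq_one]
    rw [ClassGroup.mk0_eq_one_iff] at h1
    obtain ⟨β, hβ⟩ := h1
    exact ⟨β, hβ.symm⟩
  -- the fibre without `t₀`
  set U : Set ((fun t : T => ClassGroup.mk0
    (⟨(Pf t).asIdeal, hmem _⟩ : nonZeroDivisors (Ideal (𝓞 F)))) ⁻¹' {y}) := {t₀}ᶜ with hU
  have hUinf : U.Infinite := (Set.finite_singleton t₀).infinite_compl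
  haveI : Infinite U := hUinf.to_subtype
  choose β hβ using fun u : U => hprinc u.1.1 u.1.2
  haveI : Finite (𝓞 F ⧸ Ideal.span {(4 : 𝓞 F)}) :=
    Ideal.finiteQuotientOfFreeOfNeBot _ (by
      rw [Ne, Ideal.span_singleton_eq_bot]
      norm_num)
  obtain ⟨u₁, u₂, hne, heq⟩ := Finite.exists_ne_map_eq_of_infinite
    (fun u : U => Ideal.Quotient.mk (Ideal.span {(4 : 𝓞 F)}) (β u))
  refine ⟨t₀.1, u₁.1.1, u₂.1.1, Pf t₀, Pf u₁.1, Pf u₂.1, h, β u₁, β u₂, hPf _, hPf _, hPf _, ?_, ?_,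
    hβ u₁, hβ u₂, ?_⟩
  · intro h1
    exact u₁.2 (Subtype.ext (Subtype.ext h1))
  · intro h1
    exact hne (Subtype.ext (Subtype.ext (Subtype.ext h1)))
  · rw [← Ideal.mem_span_singleton, ← Ideal.Quotient.eq]
    exact heq


theorem Sp.ne {p q : ℕ} {P Q : HeightOneSpectrum (𝓞 F)} (hp : Sp K F p P) (hq : Sp K F q Q)
    (hne : p ≠ q) : ¬ P.asIdeal ≤ Q.asIdeal := fun h =>
  hne (two_primes F Q p q hp.1.1 hq.1.1 (h hp.2.1) hq.2.1)

theorem Sp.two {p : ℕ} {P : HeightOneSpectrum (𝓞 F)} (hp : Sp K F p P) :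
    (2 : 𝓞 F) ∉ P.asIdeal := by
  intro h2
  have h1 := two_primes F P p 2 hp.1.1 Nat.prime_two hp.2.1 (by exact_mod_cast h2)
  have h3 := hp.1.2.1
  omega

theorem exists_delta [IsGalois K F] (φ : Eis ≃+* 𝓞 K) (n : ℕ)
    (hn : Module.finrank K F = 2 ^ n) :
    ∃ d : 𝓞 F, (4 : 𝓞 F) ∣ d - 1 ∧ (∀ v : HeightOneSpectrum (𝓞 F), d ∈ v.asIdeal →
      (3 : 𝓞 F) ∈ v.asIdeal ∨ ∃ p : ℕ, GoodPrime p ∧ (p : 𝓞 F) ∈ v.asIdeal) ∧
      (∀ y : 𝓞 F, d ≠ y ^ 2) ∧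
      ∀ τ : F ≃ₐ[K] F, τ ≠ 1 → ∀ y : 𝓞 F, d * act K F τ d ≠ y ^ 2 := by
  obtain ⟨p₀, p₁, p₂, P₀, P₁, P₂, h, β₁, β₂, hP₀, hP₁, hP₂, h10, h12, hβ₁, hβ₂, h4⟩ :=
    exists_pairs K F φ n hn
  -- `β₂` is a unit modulo `4`
  have hcop2 : IsCoprime β₂ (2 : 𝓞 F) := by
    rw [← Ideal.isCoprime_span_singleton_iff, Ideal.isCoprime_iff_sup_eq]
    by_contra hne
    obtain ⟨Q, hQm, hQ⟩ := Ideal.exists_le_maximal _ hne
    have h2' : (2 : 𝓞 F) ∈ Q := hQ (Ideal.mem_sup_right (Ideal.mem_span_singleton_self 2))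
    have h1 : P₂.asIdeal * P₀.asIdeal ^ h ≤ Q := by
      rw [← hβ₂]
      exact le_sup_left.trans hQ
    rcases hQm.isPrime.mul_le.1 h1 with h5 | h5
    · have h6 := P₂.isMaximal.eq_of_le hQm.ne_top h5
      exact hP₂.two K F (by rw [h6]; exact h2')
    · have h6 := P₀.isMaximal.eq_of_le hQm.ne_top (hQm.isPrime.le_of_pow_le h5)
      exact hP₀.two K F (by rw [h6]; exact h2')
  have hcop4 : IsCoprime β₂ (4 : 𝓞 F) := by
    have e : (4 : 𝓞 F) = 2 * 2 := by norm_num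
    rw [e]
    exact hcop2.mul_right hcop2
  haveI hfin4 : Finite (𝓞 F ⧸ Ideal.span {(4 : 𝓞 F)}) :=
    Ideal.finiteQuotientOfFreeOfNeBot _ (by
      rw [Ne, Ideal.span_singleton_eq_bot]
      norm_num)
  obtain ⟨e, he, hpow⟩ : ∃ e : ℕ, 0 < e ∧ (4 : 𝓞 F) ∣ β₂ ^ (e + 1) - 1 := by
    obtain ⟨a, b, hab⟩ := hcop4
    have hu : IsUnit (Ideal.Quotient.mk (Ideal.span {(4 : 𝓞 F)}) β₂) := by
      refine IsUnit.of_mul_eq_one (Ideal.Quotient.mk _ a) ?_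
      rw [← map_mul, ← map_one (Ideal.Quotient.mk _), Ideal.Quotient.eq,
        Ideal.mem_span_singleton]
      exact ⟨-b, by linear_combination hab⟩
    obtain ⟨u, hu⟩ := hu
    have h1 : 0 < orderOf u := orderOf_pos u
    refine ⟨2 * orderOf u - 1, by omega, ?_⟩
    have h2 : 2 * orderOf u - 1 + 1 = orderOf u * 2 := by omega
    rw [h2, ← Ideal.mem_span_singleton, ← Ideal.Quotient.eq, map_pow, map_one, ← hu,
      pow_mul, ← Units.val_pow_eq_pow_val, pow_orderOf_eq_one, Units.val_one, one_pow]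
  set d : 𝓞 F := β₁ * β₂ ^ e with hd
  have hspan : Ideal.span {d} = P₁.asIdeal * (P₀.asIdeal ^ h * (P₂.asIdeal * P₀.asIdeal ^ h) ^ e) := by
    rw [hd, ← Ideal.span_singleton_mul_span_singleton, ← Ideal.span_singleton_pow, hβ₁, hβ₂]
    ring
  have hle : ∀ Q : Ideal (𝓞 F), Q.IsPrime → d ∈ Q → P₁.asIdeal ≤ Q ∨ P₀.asIdeal ≤ Q ∨
      P₂.asIdeal ≤ Q := by
    intro Q hQ hdQ
    have h1 : Ideal.span {d} ≤ Q := (Ideal.span_singleton_le_iff_mem Q).2 hdQ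
    rw [hspan] at h1
    rcases hQ.mul_le.1 h1 with h2 | h2
    · exact Or.inl h2
    · rcases hQ.mul_le.1 h2 with h3 | h3
      · exact Or.inr (Or.inl (hQ.le_of_pow_le h3))
      · rcases hQ.mul_le.1 (hQ.le_of_pow_le h3) with h4 | h4
        · exact Or.inr (Or.inr h4)
        · exact Or.inr (Or.inl (hQ.le_of_pow_le h4))
  have hdP : d ∈ P₁.asIdeal := by
    rw [← Ideal.span_singleton_le_iff_mem, hspan]
    exact Ideal.mul_le_left
  have hdP2 : ¬ P₁.asIdeal ^ 2 ∣ Ideal.span {d} := by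
    rw [hspan, pow_two]
    intro h1
    have h2 := (mul_dvd_mul_iff_left P₁.ne_bot).1 h1
    have h3 : P₀.asIdeal ≤ P₁.asIdeal ∨ P₂.asIdeal ≤ P₁.asIdeal := by
      have h4 := Ideal.dvd_iff_le.1 h2
      rcases P₁.isPrime.mul_le.1 h4 with h5 | h5
      · exact Or.inl (P₁.isPrime.le_of_pow_le h5)
      · rcases P₁.isPrime.mul_le.1 (P₁.isPrime.le_of_pow_le h5) with h6 | h6
        · exact Or.inr h6
        · exact Or.inl (P₁.isPrime.le_of_pow_le h6)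
    rcases h3 with h3 | h3
    · exact hP₀.ne K F hP₁ h10.symm h3
    · exact hP₂.ne K F hP₁ h12.symm h3
  refine ⟨d, ?_, ?_, ?_, ?_⟩
  · obtain ⟨a, ha⟩ := h4
    obtain ⟨b, hb⟩ := hpow
    refine ⟨a * β₂ ^ e + b, ?_⟩
    rw [hd]
    linear_combination β₂ ^ e * ha + hb
  · intro v hv
    right
    rcases hle v.asIdeal v.isPrime hv with h1 | h1 | h1
    · exact ⟨p₁, hP₁.1, h1 hP₁.2.1⟩
    · exact ⟨p₀, hP₀.1, h1 hP₀.2.1⟩
    · exact ⟨p₂, hP₂.1, h1 hP₂.2.1⟩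
  · intro y hy
    have h1 : y ∈ P₁.asIdeal := P₁.isPrime.mem_of_pow_mem 2 (by rw [← hy]; exact hdP)
    apply hdP2
    rw [hy, ← Ideal.span_singleton_pow]
    exact pow_dvd_pow_of_dvd (Ideal.dvd_iff_le.2 ((Ideal.span_singleton_le_iff_mem _).2 h1)) 2
  · intro τ hτ y hy
    have hτd : act K F τ d ∉ P₁.asIdeal := by
      intro h1
      have h2 : d ∈ P₁.asIdeal.comap (act K F τ) := h1
      rcases hle _ (P₁.isPrime.comap _) h2 with h3 | h3 | h3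
      · exact hτ (hP₁.2.2 τ (fun x hx => h3 hx))
      · have h4 : act K F τ (p₀ : 𝓞 F) ∈ P₁.asIdeal := h3 hP₀.2.1
        rw [map_natCast] at h4
        exact h10 (two_primes F P₁ p₁ p₀ hP₁.1.1 hP₀.1.1 hP₁.2.1 h4)
      · have h4 : act K F τ (p₂ : 𝓞 F) ∈ P₁.asIdeal := h3 hP₂.2.1
        rw [map_natCast] at h4
        exact h12 (two_primes F P₁ p₁ p₂ hP₁.1.1 hP₂.1.1 hP₁.2.1 h4)
    have h1 : y ∈ P₁.asIdeal := P₁.isPrime.mem_of_pow_mem 2 (by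
      rw [← hy]
      exact Ideal.mul_mem_right _ _ hdP)
    have h2 : P₁.asIdeal ^ 2 ∣ Ideal.span {d} * Ideal.span {act K F τ d} := by
      rw [Ideal.span_singleton_mul_span_singleton, hy, ← Ideal.span_singleton_pow]
      exact pow_dvd_pow_of_dvd (Ideal.dvd_iff_le.2 ((Ideal.span_singleton_le_iff_mem _).2 h1)) 2
    apply hdP2
    refine P₁.prime.pow_dvd_of_dvd_mul_right 2 ?_ h2
    intro h3
    exact hτd ((Ideal.span_singleton_le_iff_mem _).1 (Ideal.dvd_iff_le.1 h3))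

end

end NGX
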