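import Pool.Agent.MP_9ab903_nt.NGX.C

/-! ## [NG-X] part D: the class contains groups of arbitrarily large nilpotency class -/

set_option autoImplicit false

open NumberField IsDedekindDomain
open CM27 CMT CF NAB
open scoped Classical commutatorElement

namespace NGX

section
variable (K F M : Type) [Field K] [NumberField K] [Field F] [NumberField F] [Field M]
  [NumberField M] [Algebra K F] [Algebra F M] [Algebra K M] [IsScalarTower K F M] [IsGalois K F]
  [IsGalois K M]

/-- the nilpotency class grows -/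
theorem class_step (d : 𝓞 F) (s : M) (hs : s ^ 2 = algebraMap F M (d : F))
    (hd : ∀ τ : F ≃ₐ[K] F, τ ≠ 1 → ∀ y : 𝓞 F, d * act K F τ d ≠ y ^ 2) (c : ℕ)
    (hc : (⊤ : Subgroup (F ≃ₐ[K] F)).lowerCentralSeries c ≠ ⊥) :
    (⊤ : Subgroup (M ≃ₐ[K] M)).lowerCentralSeries (c + 1) ≠ ⊥ := by
  have hfK : FiniteDimensional K M := Module.Finite.of_restrictScalars_finite ℚ K M
  have hfF : FiniteDimensional F M := Module.Finite.of_restrictScalars_finite K F M
  have hgF : IsGalois F M := IsGalois.tower_top_of_isGalois K F M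
  obtain ⟨g, hg, hg1⟩ := (Subgroup.ne_bot_iff_exists_ne_one).1 hc |>.elim fun a ha =>
    (⟨a.1, a.2, fun h => ha (Subtype.ext h)⟩ :
      ∃ g ∈ (⊤ : Subgroup (F ≃ₐ[K] F)).lowerCentralSeries c, g ≠ 1)
  have hsurj := AlgEquiv.restrictNormalHom_surjective (F := K) (K₁ := F) M
  have hmap : (⊤ : Subgroup (F ≃ₐ[K] F)).lowerCentralSeries c =
      ((⊤ : Subgroup (M ≃ₐ[K] M)).lowerCentralSeries c).map (AlgEquiv.restrictNormalHom F) := by
    rw [Subgroup.map_lowerCentralSeries, Subgroup.map_top_of_surjective _ hsurj]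
  rw [hmap] at hg
  obtain ⟨γ, hγ, hγg⟩ := hg
  have hres : ∀ x : F, γ⁻¹ (algebraMap F M x) = algebraMap F M (g⁻¹ x) := by
    intro x
    have h1 : AlgEquiv.restrictNormalHom F γ⁻¹ = g⁻¹ := by rw [map_inv, hγg]
    rw [← h1]
    exact (AlgEquiv.restrictNormal_commutes γ⁻¹ F x).symm
  set s' : M := γ⁻¹ s with hs'
  have hs'2 : s' ^ 2 = algebraMap F M (g⁻¹ (d : F)) := by
    rw [hs', ← map_pow, hs, hres]
  have hginv : g⁻¹ ≠ 1 := fun h => hg1 (inv_eq_one.1 h)
  -- the product is not in `F`
  have hnot : s * s' ∉ Set.range (algebraMap F M) := by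
    rintro ⟨x, hx⟩
    have h1 : x ^ 2 = (d : F) * g⁻¹ (d : F) := by
      apply (algebraMap F M).injective
      rw [map_pow, hx, mul_pow, hs, hs'2, map_mul]
    have h2 : IsIntegral ℤ x := by
      have h3 : IsIntegral ℤ (x ^ 2) := by
        rw [h1]
        exact (d * act K F g⁻¹ d).isIntegral_coe
      exact IsIntegral.of_pow two_pos h3
    apply hd g⁻¹ hginv ⟨x, h2⟩
    apply RingOfIntegers.ext
    exact h1.symm
  rw [IsGalois.mem_range_algebraMap_iff_fixed] at hnot
  push Not at hnot
  obtain ⟨a, ha⟩ := hnot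
  set a' : M ≃ₐ[K] M := a.restrictScalars K with ha'
  have hcomm : ⁅γ, a'⁆ ∈ (⊤ : Subgroup (M ≃ₐ[K] M)).lowerCentralSeries (c + 1) := by
    rw [Subgroup.lowerCentralSeries_succ]
    exact Subgroup.commutator_mem_commutator hγ (Subgroup.mem_top _)
  intro hbot
  rw [hbot, Subgroup.mem_bot, commutatorElement_eq_one_iff_mul_comm] at hcomm
  apply ha
  have hpm : a s = s ∨ a s = -s := by
    apply sq_eq_sq_iff_eq_or_eq_neg.1
    rw [← map_pow, hs, a.commutes]
  have hcomm' : γ⁻¹ * a' = a' * γ⁻¹ := by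
    rw [inv_mul_eq_iff_eq_mul, ← mul_assoc, hcomm, mul_assoc, mul_inv_cancel, mul_one]
  have h1 : a s' = γ⁻¹ (a s) := by
    have := congrArg (fun t : M ≃ₐ[K] M => t s) hcomm'
    exact this.symm
  rw [map_mul, h1]
  rcases hpm with h2 | h2
  · rw [h2]
  · rw [h2, map_neg]
    ring

end

/-- **Fields of the class of every nilpotency class.** -/
theorem exists_class (K : Type) [Field K] [NumberField K] (φ : Eis ≃+* 𝓞 K) (c : ℕ) :
    ∃ (F : Type) (_ : Field F) (_ : NumberField F) (_ : Algebra K F) (_ : IsGalois K F) (n : ℕ),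
      Module.finrank K F = 2 ^ n ∧ Unr K F ∧
      (⊤ : Subgroup (F ≃ₐ[K] F)).lowerCentralSeries c ≠ ⊥ := by
  induction c with
  | zero =>
    obtain ⟨d, h4, hgood, hsq, -⟩ := exists_delta K K φ 0 (by rw [Module.finrank_self, pow_zero])
    have hu : Unr K K := by
      intro v P hP _ _
      exact ram_one_of_inertia K K v P hP fun σ _ => Subsingleton.elim _ _
    obtain ⟨M, _, _, iFM, iKM, iT, _, m, hm, huM, s, hs⟩ := exists_closure K K 0
      (by rw [Module.finrank_self, pow_zero]) hu d h4 hgood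
    have key : ∀ x : K, @algebraMap K M _ _ iKM x = @algebraMap K M _ _ iFM x := fun x =>
      @IsScalarTower.algebraMap_apply K K M _ _ _ _ iFM iKM iT x
    rw [← key] at hs
    clear key iT
    clear iFM
    refine ⟨M, inferInstance, inferInstance, inferInstance, inferInstance, m, hm, huM, ?_⟩
    intro hbot
    have hfK : FiniteDimensional K M := Module.Finite.of_restrictScalars_finite ℚ K M
    have h1 : ∀ σ : M ≃ₐ[K] M, σ = 1 := by
      intro σ
      rw [Subgroup.lowerCentralSeries_zero] at hbot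
      have h2 : σ ∈ (⊤ : Subgroup (M ≃ₐ[K] M)) := Subgroup.mem_top σ
      rwa [hbot, Subgroup.mem_bot] at h2
    have h2 : s ∈ Set.range (algebraMap K M) := by
      rw [IsGalois.mem_range_algebraMap_iff_fixed]
      intro σ
      rw [h1 σ]
      rfl
    obtain ⟨x, hx⟩ := h2
    have h3 : algebraMap K M (x ^ 2) = algebraMap K M (d : K) := by
      rw [map_pow, hx, hs]
    have h4' : x ^ 2 = (d : K) := (algebraMap K M).injective h3
    have h5 : IsIntegral ℤ x := by
      have h6 : IsIntegral ℤ (x ^ 2) := by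
        rw [h4']
        exact d.isIntegral_coe
      exact IsIntegral.of_pow two_pos h6
    apply hsq ⟨x, h5⟩
    apply RingOfIntegers.ext
    exact h4'.symm
  | succ c ih =>
    obtain ⟨F, _, _, _, _, n, hn, hu, hc⟩ := ih
    obtain ⟨d, h4, hgood, -, hd⟩ := exists_delta K F φ n hn
    obtain ⟨M, _, _, _, _, _, _, m, hm, huM, s, hs⟩ := exists_closure K F n hn hu d h4 hgood
    exact ⟨M, inferInstance, inferInstance, inferInstance, inferInstance, m, hm, huM,
      class_step K F M d s hs hd c hc⟩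

end NGX
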