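import Pool.Agent.MP_9ab903_nt.NGX.D
import Pool.Agent.MP_9ab903_nt.TWR.RS1

/-! ## [NG-X] part G: the class contains fields which are Galois over `ℚ` -/

set_option autoImplicit false

open NumberField IsDedekindDomain
open CM27 CMT CF NAB TWR
open scoped Classical

namespace NGX

/-- the condition on the discriminant from the ramification over `ℚ` -/
theorem disc_of_unr (M : Type) [Field M] [NumberField M] (h : Unr ℚ M) (p : ℕ) (hp : p.Prime)
    (hpd : (p : ℤ) ∣ discr M) : p = 3 ∨ GoodPrime p := by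
  by_contra hcon
  push Not at hcon
  revert hpd
  rw [imp_false, not_dvd_discr_iff_forall_mem M (𝓞 M) (Nat.prime_iff_prime_int.1 hp)]
  intro P hP hpP
  have hpP : (p : 𝓞 M) ∈ P := by exact_mod_cast hpP
  have hP0 : P ≠ ⊥ := by
    rintro rfl
    rw [Ideal.mem_bot] at hpP
    exact hp.ne_zero (by exact_mod_cast hpP)
  let Q : HeightOneSpectrum (𝓞 M) := ⟨P, hP, hP0⟩
  have hnat : ∀ n : ℕ, ¬ p ∣ n → (n : 𝓞 ℚ) ∉ (und ℚ Q).asIdeal := by
    intro n hn h
    rw [mem_und, map_natCast] at h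
    apply hP.ne_top
    rw [Ideal.eq_top_iff_one]
    obtain ⟨a, b, hab⟩ := (Nat.isCoprime_iff_coprime.2
      ((Nat.Prime.coprime_iff_not_dvd hp).2 hn) : IsCoprime (p : ℤ) (n : ℤ))
    have h5 : ((a : 𝓞 M)) * p + b * n = 1 := by
      exact_mod_cast congrArg (Int.cast : ℤ → 𝓞 M) hab
    rw [← h5]
    exact Ideal.add_mem _ (Ideal.mul_mem_left _ _ hpP) (Ideal.mul_mem_left _ _ h)
  have h1 : Q.asIdeal.ramificationIdx (𝓞 ℚ) = 1 := by
    refine h (und ℚ Q) Q ⟨rfl⟩ ?_ ?_
    · have := hnat 3 (fun h => hcon.1 ((Nat.prime_dvd_prime_iff_eq hp Nat.prime_three).1 h))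
      exact_mod_cast this
    · intro q hq
      refine hnat q fun h => ?_
      have h6 := (Nat.prime_dvd_prime_iff_eq hp hq.1).1 h
      rw [h6] at hcon
      exact hcon.2 hq
  have h2 : (und ℚ Q).asIdeal.ramificationIdx ℤ = 1 := by
    have hdQ : ¬ (p : ℤ) ∣ discr ℚ := by
      rw [discr_rat]
      intro h
      exact hp.one_lt.ne' (by exact_mod_cast Int.eq_one_of_dvd_one (by positivity) h)
    rw [not_dvd_discr_iff_forall_mem ℚ (𝓞 ℚ) (Nat.prime_iff_prime_int.1 hp)] at hdQ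
    have hmem : (p : 𝓞 ℚ) ∈ (und ℚ Q).asIdeal := by
      rw [mem_und, map_natCast]
      exact hpP
    have hP0 := (und ℚ Q).ne_bot
    have := (und ℚ Q).isPrime
    have h1 := hdQ (und ℚ Q).asIdeal (und ℚ Q).isPrime (by exact_mod_cast hmem)
    exact Ideal.ramificationIdx_eq_one_iff.2 h1
  have := Q.isMaximal
  have := (und ℚ Q).isMaximal
  have hlies : Q.asIdeal.LiesOver (und ℚ Q).asIdeal := ⟨rfl⟩
  have h5 := Ideal.ramificationIdx_tower (R := ℤ) (und ℚ Q).asIdeal Q.asIdeal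
  rw [h1, h2] at h5
  exact Ideal.ramificationIdx_eq_one_iff.1 h5

/-- `ℚ(ω)` -/
theorem top_KK : TWR.Top KK := by
  refine ⟨IsCyclotomicExtension.isGalois {3} ℚ KK, ⟨1, by rw [d2_finrank_KK, pow_one]⟩, ?_⟩
  intro p hp hpd
  left
  have h1 : p ∣ (discr KK).natAbs := by
    have := Int.natAbs_dvd_natAbs.2 hpd
    simpa using this
  have h3 := h1.trans (CM27.disc_cyclotomic_dvd 3 KK)
  have h4 := hp.dvd_of_dvd_pow h3
  exact (Nat.prime_dvd_prime_iff_eq hp Nat.prime_three).1 h4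

/-- one step: `M` is the Galois closure over `ℚ` of `F(√d)` -/
theorem step (φ : Eis ≃+* 𝓞 KK) (F : Type) [Field F] [NumberField F] [Algebra KK F]
    [IsGalois ℚ F] (n : ℕ) (hn : Module.finrank ℚ F = 2 ^ n) (hu : Unr ℚ F) :
    ∃ (M : Type) (_ : Field M) (_ : NumberField M) (_ : Algebra F M) (_ : Algebra KK M)
      (_ : IsScalarTower KK F M) (_ : IsGalois ℚ M) (m : ℕ), Module.finrank ℚ M = 2 ^ m ∧
      Unr ℚ M ∧ ∃ (d : 𝓞 F) (s : M), s ^ 2 = algebraMap F M (d : F) ∧ (∀ y : 𝓞 F, d ≠ y ^ 2) ∧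
        ∀ τ : F ≃ₐ[KK] F, τ ≠ 1 → ∀ y : 𝓞 F, d * act KK F τ d ≠ y ^ 2 := by
  haveI hST : IsScalarTower ℚ KK F := IsScalarTower.of_algebraMap_eq' (Subsingleton.elim _ _)
  haveI : IsGalois KK F := IsGalois.tower_top_of_isGalois ℚ KK F
  have h1 : Module.finrank KK F ∣ 2 ^ n := by
    rw [← hn, ← Module.finrank_mul_finrank ℚ KK F]
    exact dvd_mul_left _ _
  obtain ⟨j, -, hj⟩ := (Nat.dvd_prime_pow Nat.prime_two).1 h1
  obtain ⟨d, h4, hgood, hsq, hd⟩ := exists_delta KK F φ j hj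
  obtain ⟨M, _, _, iFM, iQM, iT, iG, m, hm, huM, s, hs⟩ := exists_closure ℚ F n hn hu d h4 hgood
  have hi : iQM = DivisionRing.toRatAlgebra := Subsingleton.elim _ _
  subst hi
  letI iKM : Algebra KK M := ((algebraMap F M).comp (algebraMap KK F)).toAlgebra
  exact ⟨M, inferInstance, inferInstance, iFM, iKM, IsScalarTower.of_algebraMap_eq fun x => rfl,
    iG, m, hm, huM, d, s, hs, hsq, hd⟩

/-- **Fields of the class, Galois over `ℚ`, of every nilpotency class.** -/
theorem exists_class_rat (φ : Eis ≃+* 𝓞 KK) (c : ℕ) :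
    ∃ (F : Type) (_ : Field F) (_ : NumberField F) (_ : Algebra KK F) (_ : IsGalois ℚ F) (n : ℕ),
      Module.finrank ℚ F = 2 ^ n ∧ Unr ℚ F ∧
      (⊤ : Subgroup (F ≃ₐ[KK] F)).lowerCentralSeries c ≠ ⊥ := by
  induction c with
  | zero =>
    haveI : IsGalois ℚ KK := top_KK.gal
    obtain ⟨M, _, _, iFM, iKM, iT, iG, m, hm, huM, d, s, hs, hsq, -⟩ :=
      step φ KK 1 (by rw [d2_finrank_KK, pow_one]) (top_KK.unr ℚ)
    have key : ∀ x : KK, @algebraMap KK M _ _ iKM x = @algebraMap KK M _ _ iFM x := fun x =>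
      @IsScalarTower.algebraMap_apply KK KK M _ _ _ _ iFM iKM iT x
    rw [← key] at hs
    clear key iT
    clear iFM
    refine ⟨M, inferInstance, inferInstance, iKM, iG, m, hm, huM, ?_⟩
    intro hbot
    haveI hST : IsScalarTower ℚ KK M := IsScalarTower.of_algebraMap_eq' (Subsingleton.elim _ _)
    have hfK : FiniteDimensional KK M := Module.Finite.of_restrictScalars_finite ℚ KK M
    haveI : IsGalois KK M := IsGalois.tower_top_of_isGalois ℚ KK M
    have h1 : ∀ σ : M ≃ₐ[KK] M, σ = 1 := by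
      intro σ
      rw [Subgroup.lowerCentralSeries_zero] at hbot
      have h2 : σ ∈ (⊤ : Subgroup (M ≃ₐ[KK] M)) := Subgroup.mem_top σ
      rwa [hbot, Subgroup.mem_bot] at h2
    have h2 : s ∈ Set.range (algebraMap KK M) := by
      rw [IsGalois.mem_range_algebraMap_iff_fixed]
      intro σ
      rw [h1 σ]
      rfl
    obtain ⟨x, hx⟩ := h2
    have h3 : algebraMap KK M (x ^ 2) = algebraMap KK M (d : KK) := by
      rw [map_pow, hx, hs]
    have h4' : x ^ 2 = (d : KK) := (algebraMap KK M).injective h3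
    have h5 : IsIntegral ℤ x := by
      have h6 : IsIntegral ℤ (x ^ 2) := by
        rw [h4']
        exact d.isIntegral_coe
      exact IsIntegral.of_pow two_pos h6
    apply hsq ⟨x, h5⟩
    apply RingOfIntegers.ext
    exact h4'.symm
  | succ c ih =>
    obtain ⟨F, _, _, _, _, n, hn, hu, hc⟩ := ih
    obtain ⟨M, _, _, iFM, iKM, iT, iG, m, hm, huM, d, s, hs, -, hd⟩ := step φ F n hn hu
    haveI hST : IsScalarTower ℚ KK M := IsScalarTower.of_algebraMap_eq' (Subsingleton.elim _ _)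
    haveI : IsGalois KK M := IsGalois.tower_top_of_isGalois ℚ KK M
    haveI hST : IsScalarTower ℚ KK F := IsScalarTower.of_algebraMap_eq' (Subsingleton.elim _ _)
    haveI : IsGalois KK F := IsGalois.tower_top_of_isGalois ℚ KK F
    exact ⟨M, inferInstance, inferInstance, iKM, iG, m, hm, huM,
      class_step KK F M d s hs hd c hc⟩

/-- **Subfields of `ℂ` in the class, Galois over `ℚ`, of every nilpotency class.** -/
theorem exists_top (c : ℕ) : ∃ (M : IntermediateField ℚ ℂ) (_ : NumberField M), TWR.Top M ∧ w ∈ M ∧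
    (⊤ : Subgroup (M ≃ₐ[ℚ] M)).lowerCentralSeries c ≠ ⊥ := by
  obtain ⟨φ, -⟩ := exists_KK
  obtain ⟨M, _, _, _, _, n, hn, hu, hc⟩ := exists_class_rat φ c
  haveI hST : IsScalarTower ℚ KK M := IsScalarTower.of_algebraMap_eq' (Subsingleton.elim _ _)
  have hfin : FiniteDimensional KK M := Module.Finite.of_restrictScalars_finite ℚ KK M
  let ι : M →ₐ[KK] ℂ := IsAlgClosed.lift
  let F : IntermediateField ℚ ℂ := ι.fieldRange.restrictScalars ℚ
  have hmemF : ∀ x : M, ι x ∈ F := fun x => ⟨x, rfl⟩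
  have hw : w ∈ F := by
    have h1 := hmemF (algebraMap KK M ⟨w, d2_w_mem⟩)
    rw [ι.commutes] at h1
    exact h1
  let f : M →+* F := (ι : M →+* ℂ).codRestrict F hmemF
  have hf : Function.Bijective f := by
    refine ⟨f.injective, ?_⟩
    rintro ⟨_, x, rfl⟩
    exact ⟨x, rfl⟩
  let e : M ≃+* F := RingEquiv.ofBijective f hf
  haveI : CharZero F := inferInstance
  let eQ : M ≃ₐ[ℚ] F := AlgEquiv.ofRingEquiv (f := e) (fun q =>
    RingHom.congr_fun (Subsingleton.elim (f.comp (algebraMap ℚ M)) (algebraMap ℚ F)) q)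
  have hfinF : FiniteDimensional ℚ F := Module.Finite.equiv eQ.toLinearEquiv
  have hnf : NumberField F := ⟨⟩
  have hdisc : discr F = discr M := (discr_eq_discr_of_ringEquiv M e).symm
  refine ⟨F, hnf, ⟨IsGalois.of_algEquiv eQ, ⟨n, ?_⟩, ?_⟩, hw, ?_⟩
  · rw [← hn]
    exact eQ.toLinearEquiv.finrank_eq.symm
  · intro p hp hpd
    rw [hdisc] at hpd
    exact disc_of_unr M hu p hp hpd
  · intro hbot
    apply hc
    let g : (M ≃ₐ[KK] M) →* (F ≃ₐ[ℚ] F) :=
      { toFun := fun σ => eQ.symm.trans ((σ.restrictScalars ℚ).trans eQ)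
        map_one' := by
          ext x
          change ((eQ (eQ.symm x) : F) : ℂ) = x
          rw [AlgEquiv.apply_symm_apply]
        map_mul' := fun σ τ => by
          ext x
          change ((eQ (σ (τ (eQ.symm x))) : F) : ℂ) = eQ (σ (eQ.symm (eQ (τ (eQ.symm x)))))
          rw [AlgEquiv.symm_apply_apply] }
    have hg : Function.Injective g := by
      intro σ τ h
      ext x
      have h1 := congrArg (fun ρ : F ≃ₐ[ℚ] F => eQ.symm (ρ (eQ x))) h
      change eQ.symm (eQ (σ (eQ.symm (eQ x)))) = eQ.symm (eQ (τ (eQ.symm (eQ x)))) at h1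
      simpa using h1
    have h1 := Subgroup.map_lowerCentralSeries (⊤ : Subgroup (M ≃ₐ[KK] M)) g c
    have h2 : (Subgroup.map g ⊤).lowerCentralSeries c ≤ (⊤ : Subgroup (F ≃ₐ[ℚ] F)).lowerCentralSeries c :=
      Subgroup.lowerCentralSeries_mono c le_top
    rw [hbot, ← h1, le_bot_iff, Subgroup.map_eq_bot_iff_of_injective _ hg] at h2
    exact h2

end NGX
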