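import Pool.Agent.MP_9ab903_nt.NGX.G

/-! ## [NG-X] part H: infinitely many fields of every nilpotency class -/

set_option autoImplicit false

open NumberField IsDedekindDomain
open CM27 CMT CF NAB TWR
open scoped Classical

namespace NGX

theorem nilpotent_top {M : IntermediateField ℚ ℂ} [NumberField M] (h : TWR.Top M) :
    Group.IsNilpotent (M ≃ₐ[ℚ] M) := by
  haveI := h.gal
  obtain ⟨n, hn⟩ := h.deg
  haveI : Fact (Nat.Prime 2) := ⟨Nat.prime_two⟩
  have hp : IsPGroup 2 (M ≃ₐ[ℚ] M) := by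
    rw [IsPGroup.iff_card]
    exact ⟨n, by rw [IsGalois.card_aut_eq_finrank, hn]⟩
  exact hp.isNilpotent

/-- **For every `c` there are infinitely many fields `M` whose Galois group over `ℚ` has nilpotency class
greater than `c`.** -/
theorem infinite_top (c : ℕ) : {M : IntermediateField ℚ ℂ | ∃ _ : NumberField M, TWR.Top M ∧
    c < Group.nilpotencyClass (M ≃ₐ[ℚ] M)}.Infinite := by
  intro hfin
  -- a bound for the class
  obtain ⟨C, hC⟩ : ∃ C : ℕ, ∀ M ∈ {M : IntermediateField ℚ ℂ | ∃ _ : NumberField M, TWR.Top M ∧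
    c < Group.nilpotencyClass (M ≃ₐ[ℚ] M)}, Group.nilpotencyClass (M ≃ₐ[ℚ] M) ≤ C := by
    obtain ⟨C, hC⟩ := (hfin.image (fun M : IntermediateField ℚ ℂ =>
      Group.nilpotencyClass (M ≃ₐ[ℚ] M))).bddAbove
    exact ⟨C, fun M hM => hC ⟨M, hM, rfl⟩⟩
  obtain ⟨M, hN, hM, -, h⟩ := exists_top (max C c)
  haveI := nilpotent_top hM
  have h1 : max C c < Group.nilpotencyClass (M ≃ₐ[ℚ] M) := by
    rw [Ne, Subgroup.lowerCentralSeries_eq_bot_iff_nilpotencyClass_le, not_le] at h
    exact h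
  have h2 := hC M ⟨hN, hM, (le_max_right _ _).trans_lt h1⟩
  exact absurd h2 (not_le.2 ((le_max_left _ _).trans_lt h1))

end NGX
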